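import Pool.Agent.Helper53.PT.Cert.P2280

/-!
# MP_705522_gt, `q ∈ (2,4)`: certificate for `θ ∈ [2264/8192, 2296/8192]`
-/

set_option maxRecDepth 100000

namespace Pool.Agent.Helper53.PT.N

theorem q2280 : clsOK (mkTab b2280 i2280) [l2280_0] = true := by
  decide +kernel

theorem p2280_a : ixOK (mkTab b2280 i2280) = true ∧ smOK (mkTab b2280 i2280) = true ∧ clsOK (mkTab b2280 i2280) [l2280_3, l2280_4, l2280_5, l2280_6, l2280_7, l2280_8] = true := by
  have h := p2280
  rw [cond_ff, cond_ff] at h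
  exact h

theorem c2280_3 : clOK (mkTab b2280 i2280) l2280_3 = true := (clsOK_cons p2280_a.2.2).1
theorem c2280_4 : clOK (mkTab b2280 i2280) l2280_4 = true := (clsOK_cons (clsOK_cons p2280_a.2.2).2).1
theorem c2280_5 : clOK (mkTab b2280 i2280) l2280_5 = true := (clsOK_cons (clsOK_cons (clsOK_cons p2280_a.2.2).2).2).1
theorem c2280_6 : clOK (mkTab b2280 i2280) l2280_6 = true := (clsOK_cons (clsOK_cons (clsOK_cons (clsOK_cons p2280_a.2.2).2).2).2).1
theorem c2280_7 : clOK (mkTab b2280 i2280) l2280_7 = true := (clsOK_cons (clsOK_cons (clsOK_cons (clsOK_cons (clsOK_cons p2280_a.2.2).2).2).2).2).1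
theorem c2280_8 : clOK (mkTab b2280 i2280) l2280_8 = true := (clsOK_cons (clsOK_cons (clsOK_cons (clsOK_cons (clsOK_cons (clsOK_cons p2280_a.2.2).2).2).2).2).2).1
theorem c2280_0 : clOK (mkTab b2280 i2280) l2280_0 = true := (clsOK_cons q2280).1

theorem ok2280 : chk b2280 i2280 l2280 = true := chk_mk p2280_a.1 p2280_a.2.1
    (clAll_cons rfl rfl c2280_3
    (clAll_cons rfl rfl c2280_4
    (clAll_cons rfl rfl c2280_5
    (clAll_cons rfl rfl c2280_6
    (clAll_cons rfl rfl c2280_7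
    (clAll_cons rfl rfl c2280_8
    (clAll_last rfl rfl c2280_0)))))))

end Pool.Agent.Helper53.PT.N
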