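import Pool.Agent.Helper53.PT.Cert.P2344

/-!
# MP_705522_gt, `q ∈ (2,4)`: certificate for `θ ∈ [2328/8192, 2360/8192]`
-/

set_option maxRecDepth 100000

namespace Pool.Agent.Helper53.PT.N

theorem q2344 : clsOK (mkTab b2344 i2344) [l2344_4, l2344_5, l2344_6, l2344_7] = true := by
  decide +kernel

theorem p2344_a : ixOK (mkTab b2344 i2344) = true ∧ smOK (mkTab b2344 i2344) = true ∧ clsOK (mkTab b2344 i2344) [l2344_3, l2344_8, l2344_0] = true := by
  have h := p2344
  rw [cond_ff, cond_ff] at h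
  exact h

theorem c2344_3 : clOK (mkTab b2344 i2344) l2344_3 = true := (clsOK_cons p2344_a.2.2).1
theorem c2344_8 : clOK (mkTab b2344 i2344) l2344_8 = true := (clsOK_cons (clsOK_cons p2344_a.2.2).2).1
theorem c2344_0 : clOK (mkTab b2344 i2344) l2344_0 = true := (clsOK_cons (clsOK_cons (clsOK_cons p2344_a.2.2).2).2).1
theorem c2344_4 : clOK (mkTab b2344 i2344) l2344_4 = true := (clsOK_cons q2344).1
theorem c2344_5 : clOK (mkTab b2344 i2344) l2344_5 = true := (clsOK_cons (clsOK_cons q2344).2).1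
theorem c2344_6 : clOK (mkTab b2344 i2344) l2344_6 = true := (clsOK_cons (clsOK_cons (clsOK_cons q2344).2).2).1
theorem c2344_7 : clOK (mkTab b2344 i2344) l2344_7 = true := (clsOK_cons (clsOK_cons (clsOK_cons (clsOK_cons q2344).2).2).2).1

theorem ok2344 : chk b2344 i2344 l2344 = true := chk_mk p2344_a.1 p2344_a.2.1
    (clAll_cons rfl rfl c2344_3
    (clAll_cons rfl rfl c2344_4
    (clAll_cons rfl rfl c2344_5
    (clAll_cons rfl rfl c2344_6
    (clAll_cons rfl rfl c2344_7
    (clAll_cons rfl rfl c2344_8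
    (clAll_last rfl rfl c2344_0)))))))

end Pool.Agent.Helper53.PT.N
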