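import Pool.Agent.Helper53.PT.Cert.P2376

/-!
# MP_705522_gt, `q ∈ (2,4)`: certificate for `θ ∈ [2360/8192, 2392/8192]`
-/

set_option maxRecDepth 100000

namespace Pool.Agent.Helper53.PT.N

theorem q2376 : clsOK (mkTab b2376 i2376) [l2376_3, l2376_7, l2376_0] = true := by
  decide +kernel

theorem p2376_a : ixOK (mkTab b2376 i2376) = true ∧ smOK (mkTab b2376 i2376) = true ∧ clsOK (mkTab b2376 i2376) [l2376_4, l2376_5, l2376_6, l2376_8] = true := by
  have h := p2376
  rw [cond_ff, cond_ff] at h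
  exact h

theorem c2376_4 : clOK (mkTab b2376 i2376) l2376_4 = true := (clsOK_cons p2376_a.2.2).1
theorem c2376_5 : clOK (mkTab b2376 i2376) l2376_5 = true := (clsOK_cons (clsOK_cons p2376_a.2.2).2).1
theorem c2376_6 : clOK (mkTab b2376 i2376) l2376_6 = true := (clsOK_cons (clsOK_cons (clsOK_cons p2376_a.2.2).2).2).1
theorem c2376_8 : clOK (mkTab b2376 i2376) l2376_8 = true := (clsOK_cons (clsOK_cons (clsOK_cons (clsOK_cons p2376_a.2.2).2).2).2).1
theorem c2376_3 : clOK (mkTab b2376 i2376) l2376_3 = true := (clsOK_cons q2376).1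
theorem c2376_7 : clOK (mkTab b2376 i2376) l2376_7 = true := (clsOK_cons (clsOK_cons q2376).2).1
theorem c2376_0 : clOK (mkTab b2376 i2376) l2376_0 = true := (clsOK_cons (clsOK_cons (clsOK_cons q2376).2).2).1

theorem ok2376 : chk b2376 i2376 l2376 = true := chk_mk p2376_a.1 p2376_a.2.1
    (clAll_cons rfl rfl c2376_3
    (clAll_cons rfl rfl c2376_4
    (clAll_cons rfl rfl c2376_5
    (clAll_cons rfl rfl c2376_6
    (clAll_cons rfl rfl c2376_7
    (clAll_cons rfl rfl c2376_8
    (clAll_last rfl rfl c2376_0)))))))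

end Pool.Agent.Helper53.PT.N
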