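import Pool.Agent.Helper53.PT.Cert.P2408

/-!
# MP_705522_gt, `q ∈ (2,4)`: certificate for `θ ∈ [2392/8192, 2424/8192]`
-/

set_option maxRecDepth 100000

namespace Pool.Agent.Helper53.PT.N

theorem q2408 : clsOK (mkTab b2408 i2408) [l2408_3, l2408_4, l2408_5, l2408_6, l2408_7] = true := by
  decide +kernel

theorem p2408_a : ixOK (mkTab b2408 i2408) = true ∧ smOK (mkTab b2408 i2408) = true ∧ clsOK (mkTab b2408 i2408) [l2408_0] = true := by
  have h := p2408
  rw [cond_ff, cond_ff] at h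
  exact h

theorem c2408_0 : clOK (mkTab b2408 i2408) l2408_0 = true := (clsOK_cons p2408_a.2.2).1
theorem c2408_3 : clOK (mkTab b2408 i2408) l2408_3 = true := (clsOK_cons q2408).1
theorem c2408_4 : clOK (mkTab b2408 i2408) l2408_4 = true := (clsOK_cons (clsOK_cons q2408).2).1
theorem c2408_5 : clOK (mkTab b2408 i2408) l2408_5 = true := (clsOK_cons (clsOK_cons (clsOK_cons q2408).2).2).1
theorem c2408_6 : clOK (mkTab b2408 i2408) l2408_6 = true := (clsOK_cons (clsOK_cons (clsOK_cons (clsOK_cons q2408).2).2).2).1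
theorem c2408_7 : clOK (mkTab b2408 i2408) l2408_7 = true := (clsOK_cons (clsOK_cons (clsOK_cons (clsOK_cons (clsOK_cons q2408).2).2).2).2).1

theorem ok2408 : chk b2408 i2408 l2408 = true := chk_mk p2408_a.1 p2408_a.2.1
    (clAll_cons rfl rfl c2408_3
    (clAll_cons rfl rfl c2408_4
    (clAll_cons rfl rfl c2408_5
    (clAll_cons rfl rfl c2408_6
    (clAll_cons rfl rfl c2408_7
    (clAll_last rfl rfl c2408_0))))))

end Pool.Agent.Helper53.PT.N
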