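import Pool.Agent.Helper53.PT.Cert.P2440

/-!
# MP_705522_gt, `q ∈ (2,4)`: certificate for `θ ∈ [2424/8192, 2456/8192]`
-/

set_option maxRecDepth 100000

namespace Pool.Agent.Helper53.PT.N

theorem q2440 : clsOK (mkTab b2440 i2440) [l2440_3, l2440_5, l2440_6, l2440_7] = true := by
  decide +kernel

theorem p2440_a : ixOK (mkTab b2440 i2440) = true ∧ smOK (mkTab b2440 i2440) = true ∧ clsOK (mkTab b2440 i2440) [l2440_4, l2440_0] = true := by
  have h := p2440
  rw [cond_ff, cond_ff] at h
  exact h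

theorem c2440_4 : clOK (mkTab b2440 i2440) l2440_4 = true := (clsOK_cons p2440_a.2.2).1
theorem c2440_0 : clOK (mkTab b2440 i2440) l2440_0 = true := (clsOK_cons (clsOK_cons p2440_a.2.2).2).1
theorem c2440_3 : clOK (mkTab b2440 i2440) l2440_3 = true := (clsOK_cons q2440).1
theorem c2440_5 : clOK (mkTab b2440 i2440) l2440_5 = true := (clsOK_cons (clsOK_cons q2440).2).1
theorem c2440_6 : clOK (mkTab b2440 i2440) l2440_6 = true := (clsOK_cons (clsOK_cons (clsOK_cons q2440).2).2).1
theorem c2440_7 : clOK (mkTab b2440 i2440) l2440_7 = true := (clsOK_cons (clsOK_cons (clsOK_cons (clsOK_cons q2440).2).2).2).1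

theorem ok2440 : chk b2440 i2440 l2440 = true := chk_mk p2440_a.1 p2440_a.2.1
    (clAll_cons rfl rfl c2440_3
    (clAll_cons rfl rfl c2440_4
    (clAll_cons rfl rfl c2440_5
    (clAll_cons rfl rfl c2440_6
    (clAll_cons rfl rfl c2440_7
    (clAll_last rfl rfl c2440_0))))))

end Pool.Agent.Helper53.PT.N
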