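import Pool.Agent.Helper53.PT.Cert.P2468

/-!
# MP_705522_gt, `q ∈ (2,4)`: certificate for `θ ∈ [2456/8192, 2480/8192]`
-/

set_option maxRecDepth 100000

namespace Pool.Agent.Helper53.PT.N

theorem q2468 : clsOK (mkTab b2468 i2468) [l2468_5, l2468_0] = true := by
  decide +kernel

theorem p2468_a : ixOK (mkTab b2468 i2468) = true ∧ smOK (mkTab b2468 i2468) = true ∧ clsOK (mkTab b2468 i2468) [l2468_3, l2468_4, l2468_6] = true := by
  have h := p2468
  rw [cond_ff, cond_ff] at h
  exact h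

theorem c2468_3 : clOK (mkTab b2468 i2468) l2468_3 = true := (clsOK_cons p2468_a.2.2).1
theorem c2468_4 : clOK (mkTab b2468 i2468) l2468_4 = true := (clsOK_cons (clsOK_cons p2468_a.2.2).2).1
theorem c2468_6 : clOK (mkTab b2468 i2468) l2468_6 = true := (clsOK_cons (clsOK_cons (clsOK_cons p2468_a.2.2).2).2).1
theorem c2468_5 : clOK (mkTab b2468 i2468) l2468_5 = true := (clsOK_cons q2468).1
theorem c2468_0 : clOK (mkTab b2468 i2468) l2468_0 = true := (clsOK_cons (clsOK_cons q2468).2).1

theorem ok2468 : chk b2468 i2468 l2468 = true := chk_mk p2468_a.1 p2468_a.2.1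
    (clAll_cons rfl rfl c2468_3
    (clAll_cons rfl rfl c2468_4
    (clAll_cons rfl rfl c2468_5
    (clAll_cons rfl rfl c2468_6
    (clAll_last rfl rfl c2468_0)))))

end Pool.Agent.Helper53.PT.N
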