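import Pool.Agent.Helper53.PT.Cert.P2504

/-!
# MP_705522_gt, `q ∈ (2,4)`: certificate for `θ ∈ [2496/8192, 2512/8192]`
-/

set_option maxRecDepth 100000

namespace Pool.Agent.Helper53.PT.N

theorem q2504 : clsOK (mkTab b2504 i2504) [l2504_6, l2504_0] = true := by
  decide +kernel

theorem p2504_a : ixOK (mkTab b2504 i2504) = true ∧ smOK (mkTab b2504 i2504) = true ∧ clsOK (mkTab b2504 i2504) [l2504_3, l2504_4, l2504_5] = true := by
  have h := p2504
  rw [cond_ff, cond_ff] at h
  exact h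

theorem c2504_3 : clOK (mkTab b2504 i2504) l2504_3 = true := (clsOK_cons p2504_a.2.2).1
theorem c2504_4 : clOK (mkTab b2504 i2504) l2504_4 = true := (clsOK_cons (clsOK_cons p2504_a.2.2).2).1
theorem c2504_5 : clOK (mkTab b2504 i2504) l2504_5 = true := (clsOK_cons (clsOK_cons (clsOK_cons p2504_a.2.2).2).2).1
theorem c2504_6 : clOK (mkTab b2504 i2504) l2504_6 = true := (clsOK_cons q2504).1
theorem c2504_0 : clOK (mkTab b2504 i2504) l2504_0 = true := (clsOK_cons (clsOK_cons q2504).2).1

theorem ok2504 : chk b2504 i2504 l2504 = true := chk_mk p2504_a.1 p2504_a.2.1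
    (clAll_cons rfl rfl c2504_3
    (clAll_cons rfl rfl c2504_4
    (clAll_cons rfl rfl c2504_5
    (clAll_cons rfl rfl c2504_6
    (clAll_last rfl rfl c2504_0)))))

end Pool.Agent.Helper53.PT.N
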