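import Pool.Agent.Helper53.PT.Cert.P2508

/-!
# MP_705522_gt, `q ∈ (2,4)`: certificate for `θ ∈ [2500/8192, 2516/8192]`
-/

set_option maxRecDepth 100000

namespace Pool.Agent.Helper53.PT.N

theorem q2508 : clsOK (mkTab b2508 i2508) [l2508_6, l2508_0] = true := by
  decide +kernel

theorem p2508_a : ixOK (mkTab b2508 i2508) = true ∧ smOK (mkTab b2508 i2508) = true ∧ clsOK (mkTab b2508 i2508) [l2508_3, l2508_4, l2508_5] = true := by
  have h := p2508
  rw [cond_ff, cond_ff] at h
  exact h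

theorem c2508_3 : clOK (mkTab b2508 i2508) l2508_3 = true := (clsOK_cons p2508_a.2.2).1
theorem c2508_4 : clOK (mkTab b2508 i2508) l2508_4 = true := (clsOK_cons (clsOK_cons p2508_a.2.2).2).1
theorem c2508_5 : clOK (mkTab b2508 i2508) l2508_5 = true := (clsOK_cons (clsOK_cons (clsOK_cons p2508_a.2.2).2).2).1
theorem c2508_6 : clOK (mkTab b2508 i2508) l2508_6 = true := (clsOK_cons q2508).1
theorem c2508_0 : clOK (mkTab b2508 i2508) l2508_0 = true := (clsOK_cons (clsOK_cons q2508).2).1

theorem ok2508 : chk b2508 i2508 l2508 = true := chk_mk p2508_a.1 p2508_a.2.1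
    (clAll_cons rfl rfl c2508_3
    (clAll_cons rfl rfl c2508_4
    (clAll_cons rfl rfl c2508_5
    (clAll_cons rfl rfl c2508_6
    (clAll_last rfl rfl c2508_0)))))

end Pool.Agent.Helper53.PT.N
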