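import Pool.Agent.Helper53.PT.Cert.P2522

/-!
# MP_705522_gt, `q ∈ (2,4)`: certificate for `θ ∈ [2516/8192, 2528/8192]`
-/

set_option maxRecDepth 100000

namespace Pool.Agent.Helper53.PT.N

theorem q2522 : clsOK (mkTab b2522 i2522) [l2522_3, l2522_5, l2522_6] = true := by
  decide +kernel

theorem p2522_a : ixOK (mkTab b2522 i2522) = true ∧ smOK (mkTab b2522 i2522) = true ∧ clsOK (mkTab b2522 i2522) [l2522_4, l2522_0] = true := by
  have h := p2522
  rw [cond_ff, cond_ff] at h
  exact h

theorem c2522_4 : clOK (mkTab b2522 i2522) l2522_4 = true := (clsOK_cons p2522_a.2.2).1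
theorem c2522_0 : clOK (mkTab b2522 i2522) l2522_0 = true := (clsOK_cons (clsOK_cons p2522_a.2.2).2).1
theorem c2522_3 : clOK (mkTab b2522 i2522) l2522_3 = true := (clsOK_cons q2522).1
theorem c2522_5 : clOK (mkTab b2522 i2522) l2522_5 = true := (clsOK_cons (clsOK_cons q2522).2).1
theorem c2522_6 : clOK (mkTab b2522 i2522) l2522_6 = true := (clsOK_cons (clsOK_cons (clsOK_cons q2522).2).2).1

theorem ok2522 : chk b2522 i2522 l2522 = true := chk_mk p2522_a.1 p2522_a.2.1
    (clAll_cons rfl rfl c2522_3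
    (clAll_cons rfl rfl c2522_4
    (clAll_cons rfl rfl c2522_5
    (clAll_cons rfl rfl c2522_6
    (clAll_last rfl rfl c2522_0)))))

end Pool.Agent.Helper53.PT.N
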