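import Pool.Agent.Helper53.PT.Cert.P2540

/-!
# MP_705522_gt, `q ∈ (2,4)`: certificate for `θ ∈ [2536/8192, 2544/8192]`
-/

set_option maxRecDepth 100000

namespace Pool.Agent.Helper53.PT.N

theorem q2540 : clsOK (mkTab b2540 i2540) [l2540_4, l2540_6, l2540_0] = true := by
  decide +kernel

theorem p2540_a : ixOK (mkTab b2540 i2540) = true ∧ smOK (mkTab b2540 i2540) = true ∧ clsOK (mkTab b2540 i2540) [l2540_3, l2540_5] = true := by
  have h := p2540
  rw [cond_ff, cond_ff] at h
  exact h

theorem c2540_3 : clOK (mkTab b2540 i2540) l2540_3 = true := (clsOK_cons p2540_a.2.2).1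
theorem c2540_5 : clOK (mkTab b2540 i2540) l2540_5 = true := (clsOK_cons (clsOK_cons p2540_a.2.2).2).1
theorem c2540_4 : clOK (mkTab b2540 i2540) l2540_4 = true := (clsOK_cons q2540).1
theorem c2540_6 : clOK (mkTab b2540 i2540) l2540_6 = true := (clsOK_cons (clsOK_cons q2540).2).1
theorem c2540_0 : clOK (mkTab b2540 i2540) l2540_0 = true := (clsOK_cons (clsOK_cons (clsOK_cons q2540).2).2).1

theorem ok2540 : chk b2540 i2540 l2540 = true := chk_mk p2540_a.1 p2540_a.2.1
    (clAll_cons rfl rfl c2540_3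
    (clAll_cons rfl rfl c2540_4
    (clAll_cons rfl rfl c2540_5
    (clAll_cons rfl rfl c2540_6
    (clAll_last rfl rfl c2540_0)))))

end Pool.Agent.Helper53.PT.N
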