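import Pool.Agent.Helper53.PT.Cert.P2553

/-!
# MP_705522_gt, `q ∈ (2,4)`: certificate for `θ ∈ [2550/8192, 2556/8192]`
-/

set_option maxRecDepth 100000

namespace Pool.Agent.Helper53.PT.N

theorem q2553 : clsOK (mkTab b2553 i2553) [l2553_3, l2553_5] = true := by
  decide +kernel

theorem p2553_a : ixOK (mkTab b2553 i2553) = true ∧ smOK (mkTab b2553 i2553) = true ∧ clsOK (mkTab b2553 i2553) [l2553_4, l2553_6, l2553_0] = true := by
  have h := p2553
  rw [cond_ff, cond_ff] at h
  exact h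

theorem c2553_4 : clOK (mkTab b2553 i2553) l2553_4 = true := (clsOK_cons p2553_a.2.2).1
theorem c2553_6 : clOK (mkTab b2553 i2553) l2553_6 = true := (clsOK_cons (clsOK_cons p2553_a.2.2).2).1
theorem c2553_0 : clOK (mkTab b2553 i2553) l2553_0 = true := (clsOK_cons (clsOK_cons (clsOK_cons p2553_a.2.2).2).2).1
theorem c2553_3 : clOK (mkTab b2553 i2553) l2553_3 = true := (clsOK_cons q2553).1
theorem c2553_5 : clOK (mkTab b2553 i2553) l2553_5 = true := (clsOK_cons (clsOK_cons q2553).2).1

theorem ok2553 : chk b2553 i2553 l2553 = true := chk_mk p2553_a.1 p2553_a.2.1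
    (clAll_cons rfl rfl c2553_3
    (clAll_cons rfl rfl c2553_4
    (clAll_cons rfl rfl c2553_5
    (clAll_cons rfl rfl c2553_6
    (clAll_last rfl rfl c2553_0)))))

end Pool.Agent.Helper53.PT.N
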