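import Pool.Agent.Helper53.PT.Cert.P2560

/-!
# MP_705522_gt, `q ∈ (2,4)`: certificate for `θ ∈ [2556/8192, 2564/8192]`
-/

set_option maxRecDepth 100000

namespace Pool.Agent.Helper53.PT.N

theorem q2560 : clsOK (mkTab b2560 i2560) [l2560_3, l2560_4, l2560_0] = true := by
  decide +kernel

theorem p2560_a : ixOK (mkTab b2560 i2560) = true ∧ smOK (mkTab b2560 i2560) = true ∧ clsOK (mkTab b2560 i2560) [l2560_5] = true := by
  have h := p2560
  rw [cond_ff, cond_ff] at h
  exact h

theorem c2560_5 : clOK (mkTab b2560 i2560) l2560_5 = true := (clsOK_cons p2560_a.2.2).1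
theorem c2560_3 : clOK (mkTab b2560 i2560) l2560_3 = true := (clsOK_cons q2560).1
theorem c2560_4 : clOK (mkTab b2560 i2560) l2560_4 = true := (clsOK_cons (clsOK_cons q2560).2).1
theorem c2560_0 : clOK (mkTab b2560 i2560) l2560_0 = true := (clsOK_cons (clsOK_cons (clsOK_cons q2560).2).2).1

theorem ok2560 : chk b2560 i2560 l2560 = true := chk_mk p2560_a.1 p2560_a.2.1
    (clAll_cons rfl rfl c2560_3
    (clAll_cons rfl rfl c2560_4
    (clAll_cons rfl rfl c2560_5
    (clAll_last rfl rfl c2560_0))))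

end Pool.Agent.Helper53.PT.N
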