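import Pool.Agent.Helper53.PT.Cert.P2584

/-!
# MP_705522_gt, `q ∈ (2,4)`: certificate for `θ ∈ [2576/8192, 2592/8192]`
-/

set_option maxRecDepth 100000

namespace Pool.Agent.Helper53.PT.N

theorem q2584 : clsOK (mkTab b2584 i2584) [l2584_3, l2584_4, l2584_0] = true := by
  decide +kernel

theorem p2584_a : ixOK (mkTab b2584 i2584) = true ∧ smOK (mkTab b2584 i2584) = true ∧ clsOK (mkTab b2584 i2584) [l2584_5] = true := by
  have h := p2584
  rw [cond_ff, cond_ff] at h
  exact h

theorem c2584_5 : clOK (mkTab b2584 i2584) l2584_5 = true := (clsOK_cons p2584_a.2.2).1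
theorem c2584_3 : clOK (mkTab b2584 i2584) l2584_3 = true := (clsOK_cons q2584).1
theorem c2584_4 : clOK (mkTab b2584 i2584) l2584_4 = true := (clsOK_cons (clsOK_cons q2584).2).1
theorem c2584_0 : clOK (mkTab b2584 i2584) l2584_0 = true := (clsOK_cons (clsOK_cons (clsOK_cons q2584).2).2).1

theorem ok2584 : chk b2584 i2584 l2584 = true := chk_mk p2584_a.1 p2584_a.2.1
    (clAll_cons rfl rfl c2584_3
    (clAll_cons rfl rfl c2584_4
    (clAll_cons rfl rfl c2584_5
    (clAll_last rfl rfl c2584_0))))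

end Pool.Agent.Helper53.PT.N
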