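import Pool.Agent.Helper53.PT.Cert.P2604

/-!
# MP_705522_gt, `q ∈ (2,4)`: certificate for `θ ∈ [2592/8192, 2616/8192]`
-/

set_option maxRecDepth 100000

namespace Pool.Agent.Helper53.PT.N

theorem q2604 : clsOK (mkTab b2604 i2604) [l2604_3, l2604_5] = true := by
  decide +kernel

theorem p2604_a : ixOK (mkTab b2604 i2604) = true ∧ smOK (mkTab b2604 i2604) = true ∧ clsOK (mkTab b2604 i2604) [l2604_4, l2604_0] = true := by
  have h := p2604
  rw [cond_ff, cond_ff] at h
  exact h

theorem c2604_4 : clOK (mkTab b2604 i2604) l2604_4 = true := (clsOK_cons p2604_a.2.2).1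
theorem c2604_0 : clOK (mkTab b2604 i2604) l2604_0 = true := (clsOK_cons (clsOK_cons p2604_a.2.2).2).1
theorem c2604_3 : clOK (mkTab b2604 i2604) l2604_3 = true := (clsOK_cons q2604).1
theorem c2604_5 : clOK (mkTab b2604 i2604) l2604_5 = true := (clsOK_cons (clsOK_cons q2604).2).1

theorem ok2604 : chk b2604 i2604 l2604 = true := chk_mk p2604_a.1 p2604_a.2.1
    (clAll_cons rfl rfl c2604_3
    (clAll_cons rfl rfl c2604_4
    (clAll_cons rfl rfl c2604_5
    (clAll_last rfl rfl c2604_0))))

end Pool.Agent.Helper53.PT.N
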