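import Pool.Agent.Helper53.PT.Cert.P2632

/-!
# MP_705522_gt, `q ∈ (2,4)`: certificate for `θ ∈ [2616/8192, 2648/8192]`
-/

set_option maxRecDepth 100000

namespace Pool.Agent.Helper53.PT.N

theorem q2632 : clsOK (mkTab b2632 i2632) [l2632_3, l2632_4, l2632_0] = true := by
  decide +kernel

theorem p2632_a : ixOK (mkTab b2632 i2632) = true ∧ smOK (mkTab b2632 i2632) = true ∧ clsOK (mkTab b2632 i2632) [l2632_5] = true := by
  have h := p2632
  rw [cond_ff, cond_ff] at h
  exact h

theorem c2632_5 : clOK (mkTab b2632 i2632) l2632_5 = true := (clsOK_cons p2632_a.2.2).1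
theorem c2632_3 : clOK (mkTab b2632 i2632) l2632_3 = true := (clsOK_cons q2632).1
theorem c2632_4 : clOK (mkTab b2632 i2632) l2632_4 = true := (clsOK_cons (clsOK_cons q2632).2).1
theorem c2632_0 : clOK (mkTab b2632 i2632) l2632_0 = true := (clsOK_cons (clsOK_cons (clsOK_cons q2632).2).2).1

theorem ok2632 : chk b2632 i2632 l2632 = true := chk_mk p2632_a.1 p2632_a.2.1
    (clAll_cons rfl rfl c2632_3
    (clAll_cons rfl rfl c2632_4
    (clAll_cons rfl rfl c2632_5
    (clAll_last rfl rfl c2632_0))))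

end Pool.Agent.Helper53.PT.N
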