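import Pool.Agent.Helper53.PT.Cert.Q2724

/-!
# MP_705522_gt, `q ∈ (2,4)`: certificate for `θ ∈ [2712/8192, 2736/8192]`
-/

set_option maxRecDepth 100000

namespace Pool.Agent.Helper53.PT.N

theorem v2724 : acAll (mkTab b2724 i2724) 0 5 a2724_1 245 = true := by
  decide +kernel

theorem p2724_a : ixOK (mkTab b2724 i2724) = true ∧ smOK (mkTab b2724 i2724) = true ∧ clsOK (mkTab b2724 i2724) [l2724_3, l2724_4] = true := by
  have h := p2724
  rw [cond_ff, cond_ff] at h
  exact h

theorem c2724_3 : clOK (mkTab b2724 i2724) l2724_3 = true := (clsOK_cons p2724_a.2.2).1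
theorem c2724_4 : clOK (mkTab b2724 i2724) l2724_4 = true := (clsOK_cons (clsOK_cons p2724_a.2.2).2).1
theorem c2724_0 : clOK (mkTab b2724 i2724) l2724_0 = true := clOK_mk rfl (acPre_spec v2724 _ _ u2724)

theorem ok2724 : chk b2724 i2724 l2724 = true := chk_mk p2724_a.1 p2724_a.2.1
    (clAll_cons rfl rfl c2724_3
    (clAll_cons rfl rfl c2724_4
    (clAll_last rfl rfl c2724_0)))

end Pool.Agent.Helper53.PT.N
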