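import Pool.Agent.Helper53.PT.Cert.P2748

/-!
# MP_705522_gt, `q ∈ (2,4)`: certificate for `θ ∈ [2736/8192, 2760/8192]`
-/

set_option maxRecDepth 100000

namespace Pool.Agent.Helper53.PT.N

theorem q2748 : clsOK (mkTab b2748 i2748) [l2748_0] = true := by
  decide +kernel

theorem p2748_a : ixOK (mkTab b2748 i2748) = true ∧ smOK (mkTab b2748 i2748) = true ∧ clsOK (mkTab b2748 i2748) [l2748_3, l2748_4] = true := by
  have h := p2748
  rw [cond_ff, cond_ff] at h
  exact h

theorem c2748_3 : clOK (mkTab b2748 i2748) l2748_3 = true := (clsOK_cons p2748_a.2.2).1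
theorem c2748_4 : clOK (mkTab b2748 i2748) l2748_4 = true := (clsOK_cons (clsOK_cons p2748_a.2.2).2).1
theorem c2748_0 : clOK (mkTab b2748 i2748) l2748_0 = true := (clsOK_cons q2748).1

theorem ok2748 : chk b2748 i2748 l2748 = true := chk_mk p2748_a.1 p2748_a.2.1
    (clAll_cons rfl rfl c2748_3
    (clAll_cons rfl rfl c2748_4
    (clAll_last rfl rfl c2748_0)))

end Pool.Agent.Helper53.PT.N
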