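import Pool.Agent.Helper53.PT.Cert.C2056
import Pool.Agent.Helper53.PT.Cert.C2072
import Pool.Agent.Helper53.PT.Cert.C2088
import Pool.Agent.Helper53.PT.Cert.C2108
import Pool.Agent.Helper53.PT.Cert.C2132
import Pool.Agent.Helper53.PT.Cert.C2156
import Pool.Agent.Helper53.PT.Cert.C2180
import Pool.Agent.Helper53.PT.Cert.C2204
import Pool.Agent.Helper53.PT.Cert.C2228
import Pool.Agent.Helper53.PT.Cert.C2252
import Pool.Agent.Helper53.PT.Cert.C2280
import Pool.Agent.Helper53.PT.Cert.C2312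
import Pool.Agent.Helper53.PT.Cert.C2344
import Pool.Agent.Helper53.PT.Cert.C2376
import Pool.Agent.Helper53.PT.Cert.C2408
import Pool.Agent.Helper53.PT.Cert.C2440
import Pool.Agent.Helper53.PT.Cert.C2468
import Pool.Agent.Helper53.PT.Cert.C2488
import Pool.Agent.Helper53.PT.Cert.C2504
import Pool.Agent.Helper53.PT.Cert.C2508
import Pool.Agent.Helper53.PT.Cert.C2522
import Pool.Agent.Helper53.PT.Cert.C2532
import Pool.Agent.Helper53.PT.Cert.C2540
import Pool.Agent.Helper53.PT.Cert.C2547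
import Pool.Agent.Helper53.PT.Cert.C2553
import Pool.Agent.Helper53.PT.Cert.C2560
import Pool.Agent.Helper53.PT.Cert.C2570
import Pool.Agent.Helper53.PT.Cert.C2584
import Pool.Agent.Helper53.PT.Cert.C2604
import Pool.Agent.Helper53.PT.Cert.C2632
import Pool.Agent.Helper53.PT.Cert.C2664
import Pool.Agent.Helper53.PT.Cert.C2696
import Pool.Agent.Helper53.PT.Cert.C2724
import Pool.Agent.Helper53.PT.Cert.C2748
import Pool.Agent.Helper53.PT.Cert.C2762
import Pool.Agent.Helper53.PT.Cert.C2786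
import Pool.Agent.Helper53.PT.Cert.C2810
import Pool.Agent.Helper53.PT.Cert.C2834
import Pool.Agent.Helper53.PT.Cert.C2858
import Pool.Agent.Helper53.PT.Cert.C2882
import Pool.Agent.Helper53.PT.Cert.C2902
import Pool.Agent.Helper53.PT.Cert.C2918
import Pool.Agent.Helper53.PT.Cert.C2934
import Pool.Agent.Helper53.PT.Cert.C2950
import Pool.Agent.Helper53.PT.Cert.C2964
import Pool.Agent.Helper53.PT.Cert.C2976
import Pool.Agent.Helper53.PT.Cert.C2988
import Pool.Agent.Helper53.PT.Cert.C3000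
import Pool.Agent.Helper53.PT.Cert.C3012
import Pool.Agent.Helper53.PT.Cert.C3022
import Pool.Agent.Helper53.PT.Cert.C3030
import Pool.Agent.Helper53.PT.Cert.C3038
import Pool.Agent.Helper53.PT.Cert.C3046
import Pool.Agent.Helper53.PT.Cert.C3054
import Pool.Agent.Helper53.PT.Cert.C3062
import Pool.Agent.Helper53.PT.Cert.C3070
import Pool.Agent.Helper53.PT.Cert.C3080
import Pool.Agent.Helper53.PT.Cert.C3092
import Pool.Agent.Helper53.PT.Cert.C3106
import Pool.Agent.Helper53.PT.Cert.C3108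
import Pool.Agent.Helper53.PT.Cert.C3124
import Pool.Agent.Helper53.PT.Cert.C3140
import Pool.Agent.Helper53.PT.Cert.C3156
import Pool.Agent.Helper53.PT.Cert.C3172
import Pool.Agent.Helper53.PT.Cert.C3192
import Pool.Agent.Helper53.PT.Cert.C3216
import Pool.Agent.Helper53.PT.Cert.C3244
import Pool.Agent.Helper53.PT.Cert.C3276
import Pool.Agent.Helper53.PT.Cert.C3308
import Pool.Agent.Helper53.PT.Cert.C3340
import Pool.Agent.Helper53.PT.Cert.C3380
import Pool.Agent.Helper53.PT.Cert.C3428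
import Pool.Agent.Helper53.PT.Cert.C3476
import Pool.Agent.Helper53.PT.Cert.C3524
import Pool.Agent.Helper53.PT.Cert.C3572
import Pool.Agent.Helper53.PT.Cert.C3620
import Pool.Agent.Helper53.PT.Cert.C3668
import Pool.Agent.Helper53.PT.Cert.C3716
import Pool.Agent.Helper53.PT.Cert.C3764
import Pool.Agent.Helper53.PT.Cert.C3812
import Pool.Agent.Helper53.PT.Cert.C3852
import Pool.Agent.Helper53.PT.Cert.C3884
import Pool.Agent.Helper53.PT.Cert.C3916
import Pool.Agent.Helper53.PT.Cert.C3944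
import Pool.Agent.Helper53.PT.Cert.C3964
import Pool.Agent.Helper53.PT.Cert.C3980
import Pool.Agent.Helper53.PT.Cert.C3996
import Pool.Agent.Helper53.PT.Cert.C4010
import Pool.Agent.Helper63.P705.BS.Fin
import Pool.Agent.Helper53.PT.DefsB

/-!
# MP_705522_gt, `q ∈ (2,4)`: all certificates together, `θ ∈ [1/4, 4016/8192]`
-/

namespace Pool.Agent.Helper53.PT

open Pool.Agent.Helper63.P705 (baseOK base_facts tabP tabS tabT)
open N

attribute [local irreducible] tabP tabS tabT baseOK N.chk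

/-- soundness of the checker, as it is used -/
def Sound : Prop := ∀ (A : ℕ) (B : N.Base) (I : N.Ix) (cs : List N.Cl) (θ : ℝ), BaseFacts A B θ →
  N.chk B I cs = true → GT θ

theorem cell (hS : Sound) {A h : ℕ} {B : N.Base} {I : N.Ix} {cs : List N.Cl} (h0 : B.T0 = tabP A)
    (h1 : B.T1 = tabS A) (h2 : B.T2 = tabT A) (hh : B.h = h) (hb : baseOK A B = true)
    (hc : N.chk B I cs = true) {a b : ℝ} (ha : a = ((A : ℝ) - h) / 8192) (hb2 : b = ((A : ℝ) + h) / 8192)
    {θ : ℝ} (h3 : a ≤ θ) (h4 : θ ≤ b) : GT θ :=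
  hS A B I cs θ (base_facts h0 h1 h2 hb (by rw [hh, ← ha]; exact h3) (by rw [hh, ← hb2]; exact h4)) hc

theorem bo2056 : baseOK 2056 b2056 = true := by decide +kernel
theorem bo2072 : baseOK 2072 b2072 = true := by decide +kernel
theorem bo2088 : baseOK 2088 b2088 = true := by decide +kernel
theorem bo2108 : baseOK 2108 b2108 = true := by decide +kernel
theorem bo2132 : baseOK 2132 b2132 = true := by decide +kernel
theorem bo2156 : baseOK 2156 b2156 = true := by decide +kernel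
theorem bo2180 : baseOK 2180 b2180 = true := by decide +kernel
theorem bo2204 : baseOK 2204 b2204 = true := by decide +kernel
theorem bo2228 : baseOK 2228 b2228 = true := by decide +kernel
theorem bo2252 : baseOK 2252 b2252 = true := by decide +kernel
theorem bo2280 : baseOK 2280 b2280 = true := by decide +kernel
theorem bo2312 : baseOK 2312 b2312 = true := by decide +kernel
theorem bo2344 : baseOK 2344 b2344 = true := by decide +kernel
theorem bo2376 : baseOK 2376 b2376 = true := by decide +kernel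
theorem bo2408 : baseOK 2408 b2408 = true := by decide +kernel
theorem bo2440 : baseOK 2440 b2440 = true := by decide +kernel
theorem bo2468 : baseOK 2468 b2468 = true := by decide +kernel
theorem bo2488 : baseOK 2488 b2488 = true := by decide +kernel
theorem bo2504 : baseOK 2504 b2504 = true := by decide +kernel
theorem bo2508 : baseOK 2508 b2508 = true := by decide +kernel
theorem bo2522 : baseOK 2522 b2522 = true := by decide +kernel
theorem bo2532 : baseOK 2532 b2532 = true := by decide +kernel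
theorem bo2540 : baseOK 2540 b2540 = true := by decide +kernel
theorem bo2547 : baseOK 2547 b2547 = true := by decide +kernel
theorem bo2553 : baseOK 2553 b2553 = true := by decide +kernel
theorem bo2560 : baseOK 2560 b2560 = true := by decide +kernel
theorem bo2570 : baseOK 2570 b2570 = true := by decide +kernel
theorem bo2584 : baseOK 2584 b2584 = true := by decide +kernel
theorem bo2604 : baseOK 2604 b2604 = true := by decide +kernel
theorem bo2632 : baseOK 2632 b2632 = true := by decide +kernel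
theorem bo2664 : baseOK 2664 b2664 = true := by decide +kernel
theorem bo2696 : baseOK 2696 b2696 = true := by decide +kernel
theorem bo2724 : baseOK 2724 b2724 = true := by decide +kernel
theorem bo2748 : baseOK 2748 b2748 = true := by decide +kernel
theorem bo2762 : baseOK 2762 b2762 = true := by decide +kernel
theorem bo2786 : baseOK 2786 b2786 = true := by decide +kernel
theorem bo2810 : baseOK 2810 b2810 = true := by decide +kernel
theorem bo2834 : baseOK 2834 b2834 = true := by decide +kernel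
theorem bo2858 : baseOK 2858 b2858 = true := by decide +kernel
theorem bo2882 : baseOK 2882 b2882 = true := by decide +kernel
theorem bo2902 : baseOK 2902 b2902 = true := by decide +kernel
theorem bo2918 : baseOK 2918 b2918 = true := by decide +kernel
theorem bo2934 : baseOK 2934 b2934 = true := by decide +kernel
theorem bo2950 : baseOK 2950 b2950 = true := by decide +kernel
theorem bo2964 : baseOK 2964 b2964 = true := by decide +kernel
theorem bo2976 : baseOK 2976 b2976 = true := by decide +kernel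
theorem bo2988 : baseOK 2988 b2988 = true := by decide +kernel
theorem bo3000 : baseOK 3000 b3000 = true := by decide +kernel
theorem bo3012 : baseOK 3012 b3012 = true := by decide +kernel
theorem bo3022 : baseOK 3022 b3022 = true := by decide +kernel
theorem bo3030 : baseOK 3030 b3030 = true := by decide +kernel
theorem bo3038 : baseOK 3038 b3038 = true := by decide +kernel
theorem bo3046 : baseOK 3046 b3046 = true := by decide +kernel
theorem bo3054 : baseOK 3054 b3054 = true := by decide +kernel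
theorem bo3062 : baseOK 3062 b3062 = true := by decide +kernel
theorem bo3070 : baseOK 3070 b3070 = true := by decide +kernel
theorem bo3080 : baseOK 3080 b3080 = true := by decide +kernel
theorem bo3092 : baseOK 3092 b3092 = true := by decide +kernel
theorem bo3106 : baseOK 3106 b3106 = true := by decide +kernel
theorem bo3108 : baseOK 3108 b3108 = true := by decide +kernel
theorem bo3124 : baseOK 3124 b3124 = true := by decide +kernel
theorem bo3140 : baseOK 3140 b3140 = true := by decide +kernel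
theorem bo3156 : baseOK 3156 b3156 = true := by decide +kernel
theorem bo3172 : baseOK 3172 b3172 = true := by decide +kernel
theorem bo3192 : baseOK 3192 b3192 = true := by decide +kernel
theorem bo3216 : baseOK 3216 b3216 = true := by decide +kernel
theorem bo3244 : baseOK 3244 b3244 = true := by decide +kernel
theorem bo3276 : baseOK 3276 b3276 = true := by decide +kernel
theorem bo3308 : baseOK 3308 b3308 = true := by decide +kernel
theorem bo3340 : baseOK 3340 b3340 = true := by decide +kernel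
theorem bo3380 : baseOK 3380 b3380 = true := by decide +kernel
theorem bo3428 : baseOK 3428 b3428 = true := by decide +kernel
theorem bo3476 : baseOK 3476 b3476 = true := by decide +kernel
theorem bo3524 : baseOK 3524 b3524 = true := by decide +kernel
theorem bo3572 : baseOK 3572 b3572 = true := by decide +kernel
theorem bo3620 : baseOK 3620 b3620 = true := by decide +kernel
theorem bo3668 : baseOK 3668 b3668 = true := by decide +kernel
theorem bo3716 : baseOK 3716 b3716 = true := by decide +kernel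
theorem bo3764 : baseOK 3764 b3764 = true := by decide +kernel
theorem bo3812 : baseOK 3812 b3812 = true := by decide +kernel
theorem bo3852 : baseOK 3852 b3852 = true := by decide +kernel
theorem bo3884 : baseOK 3884 b3884 = true := by decide +kernel
theorem bo3916 : baseOK 3916 b3916 = true := by decide +kernel
theorem bo3944 : baseOK 3944 b3944 = true := by decide +kernel
theorem bo3964 : baseOK 3964 b3964 = true := by decide +kernel
theorem bo3980 : baseOK 3980 b3980 = true := by decide +kernel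
theorem bo3996 : baseOK 3996 b3996 = true := by decide +kernel
theorem bo4010 : baseOK 4010 b4010 = true := by decide +kernel

theorem g2056 (hS : Sound) {θ : ℝ} (h1 : (2048 / 8192 : ℝ) ≤ θ) (h2 : θ ≤ (2064 / 8192 : ℝ)) : GT θ :=
  cell hS (A := 2056) (h := 8) (B := b2056) (I := i2056) (cs := l2056) rfl rfl rfl rfl bo2056 ok2056 (by norm_num) (by norm_num) h1 h2
theorem g2072 (hS : Sound) {θ : ℝ} (h1 : (2064 / 8192 : ℝ) ≤ θ) (h2 : θ ≤ (2080 / 8192 : ℝ)) : GT θ :=
  cell hS (A := 2072) (h := 8) (B := b2072) (I := i2072) (cs := l2072) rfl rfl rfl rfl bo2072 ok2072 (by norm_num) (by norm_num) h1 h2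
theorem g2088 (hS : Sound) {θ : ℝ} (h1 : (2080 / 8192 : ℝ) ≤ θ) (h2 : θ ≤ (2096 / 8192 : ℝ)) : GT θ :=
  cell hS (A := 2088) (h := 8) (B := b2088) (I := i2088) (cs := l2088) rfl rfl rfl rfl bo2088 ok2088 (by norm_num) (by norm_num) h1 h2
theorem g2108 (hS : Sound) {θ : ℝ} (h1 : (2096 / 8192 : ℝ) ≤ θ) (h2 : θ ≤ (2120 / 8192 : ℝ)) : GT θ :=
  cell hS (A := 2108) (h := 12) (B := b2108) (I := i2108) (cs := l2108) rfl rfl rfl rfl bo2108 ok2108 (by norm_num) (by norm_num) h1 h2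
theorem g2132 (hS : Sound) {θ : ℝ} (h1 : (2120 / 8192 : ℝ) ≤ θ) (h2 : θ ≤ (2144 / 8192 : ℝ)) : GT θ :=
  cell hS (A := 2132) (h := 12) (B := b2132) (I := i2132) (cs := l2132) rfl rfl rfl rfl bo2132 ok2132 (by norm_num) (by norm_num) h1 h2
theorem g2156 (hS : Sound) {θ : ℝ} (h1 : (2144 / 8192 : ℝ) ≤ θ) (h2 : θ ≤ (2168 / 8192 : ℝ)) : GT θ :=
  cell hS (A := 2156) (h := 12) (B := b2156) (I := i2156) (cs := l2156) rfl rfl rfl rfl bo2156 ok2156 (by norm_num) (by norm_num) h1 h2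
theorem g2180 (hS : Sound) {θ : ℝ} (h1 : (2168 / 8192 : ℝ) ≤ θ) (h2 : θ ≤ (2192 / 8192 : ℝ)) : GT θ :=
  cell hS (A := 2180) (h := 12) (B := b2180) (I := i2180) (cs := l2180) rfl rfl rfl rfl bo2180 ok2180 (by norm_num) (by norm_num) h1 h2
theorem g2204 (hS : Sound) {θ : ℝ} (h1 : (2192 / 8192 : ℝ) ≤ θ) (h2 : θ ≤ (2216 / 8192 : ℝ)) : GT θ :=
  cell hS (A := 2204) (h := 12) (B := b2204) (I := i2204) (cs := l2204) rfl rfl rfl rfl bo2204 ok2204 (by norm_num) (by norm_num) h1 h2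
theorem g2228 (hS : Sound) {θ : ℝ} (h1 : (2216 / 8192 : ℝ) ≤ θ) (h2 : θ ≤ (2240 / 8192 : ℝ)) : GT θ :=
  cell hS (A := 2228) (h := 12) (B := b2228) (I := i2228) (cs := l2228) rfl rfl rfl rfl bo2228 ok2228 (by norm_num) (by norm_num) h1 h2
theorem g2252 (hS : Sound) {θ : ℝ} (h1 : (2240 / 8192 : ℝ) ≤ θ) (h2 : θ ≤ (2264 / 8192 : ℝ)) : GT θ :=
  cell hS (A := 2252) (h := 12) (B := b2252) (I := i2252) (cs := l2252) rfl rfl rfl rfl bo2252 ok2252 (by norm_num) (by norm_num) h1 h2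
theorem g2280 (hS : Sound) {θ : ℝ} (h1 : (2264 / 8192 : ℝ) ≤ θ) (h2 : θ ≤ (2296 / 8192 : ℝ)) : GT θ :=
  cell hS (A := 2280) (h := 16) (B := b2280) (I := i2280) (cs := l2280) rfl rfl rfl rfl bo2280 ok2280 (by norm_num) (by norm_num) h1 h2
theorem g2312 (hS : Sound) {θ : ℝ} (h1 : (2296 / 8192 : ℝ) ≤ θ) (h2 : θ ≤ (2328 / 8192 : ℝ)) : GT θ :=
  cell hS (A := 2312) (h := 16) (B := b2312) (I := i2312) (cs := l2312) rfl rfl rfl rfl bo2312 ok2312 (by norm_num) (by norm_num) h1 h2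
theorem g2344 (hS : Sound) {θ : ℝ} (h1 : (2328 / 8192 : ℝ) ≤ θ) (h2 : θ ≤ (2360 / 8192 : ℝ)) : GT θ :=
  cell hS (A := 2344) (h := 16) (B := b2344) (I := i2344) (cs := l2344) rfl rfl rfl rfl bo2344 ok2344 (by norm_num) (by norm_num) h1 h2
theorem g2376 (hS : Sound) {θ : ℝ} (h1 : (2360 / 8192 : ℝ) ≤ θ) (h2 : θ ≤ (2392 / 8192 : ℝ)) : GT θ :=
  cell hS (A := 2376) (h := 16) (B := b2376) (I := i2376) (cs := l2376) rfl rfl rfl rfl bo2376 ok2376 (by norm_num) (by norm_num) h1 h2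
theorem g2408 (hS : Sound) {θ : ℝ} (h1 : (2392 / 8192 : ℝ) ≤ θ) (h2 : θ ≤ (2424 / 8192 : ℝ)) : GT θ :=
  cell hS (A := 2408) (h := 16) (B := b2408) (I := i2408) (cs := l2408) rfl rfl rfl rfl bo2408 ok2408 (by norm_num) (by norm_num) h1 h2
theorem g2440 (hS : Sound) {θ : ℝ} (h1 : (2424 / 8192 : ℝ) ≤ θ) (h2 : θ ≤ (2456 / 8192 : ℝ)) : GT θ :=
  cell hS (A := 2440) (h := 16) (B := b2440) (I := i2440) (cs := l2440) rfl rfl rfl rfl bo2440 ok2440 (by norm_num) (by norm_num) h1 h2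
theorem g2468 (hS : Sound) {θ : ℝ} (h1 : (2456 / 8192 : ℝ) ≤ θ) (h2 : θ ≤ (2480 / 8192 : ℝ)) : GT θ :=
  cell hS (A := 2468) (h := 12) (B := b2468) (I := i2468) (cs := l2468) rfl rfl rfl rfl bo2468 ok2468 (by norm_num) (by norm_num) h1 h2
theorem g2488 (hS : Sound) {θ : ℝ} (h1 : (2480 / 8192 : ℝ) ≤ θ) (h2 : θ ≤ (2496 / 8192 : ℝ)) : GT θ :=
  cell hS (A := 2488) (h := 8) (B := b2488) (I := i2488) (cs := l2488) rfl rfl rfl rfl bo2488 ok2488 (by norm_num) (by norm_num) h1 h2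
theorem g2504 (hS : Sound) {θ : ℝ} (h1 : (2496 / 8192 : ℝ) ≤ θ) (h2 : θ ≤ (2512 / 8192 : ℝ)) : GT θ :=
  cell hS (A := 2504) (h := 8) (B := b2504) (I := i2504) (cs := l2504) rfl rfl rfl rfl bo2504 ok2504 (by norm_num) (by norm_num) h1 h2
theorem g2508 (hS : Sound) {θ : ℝ} (h1 : (2500 / 8192 : ℝ) ≤ θ) (h2 : θ ≤ (2516 / 8192 : ℝ)) : GT θ :=
  cell hS (A := 2508) (h := 8) (B := b2508) (I := i2508) (cs := l2508) rfl rfl rfl rfl bo2508 ok2508 (by norm_num) (by norm_num) h1 h2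
theorem g2522 (hS : Sound) {θ : ℝ} (h1 : (2516 / 8192 : ℝ) ≤ θ) (h2 : θ ≤ (2528 / 8192 : ℝ)) : GT θ :=
  cell hS (A := 2522) (h := 6) (B := b2522) (I := i2522) (cs := l2522) rfl rfl rfl rfl bo2522 ok2522 (by norm_num) (by norm_num) h1 h2
theorem g2532 (hS : Sound) {θ : ℝ} (h1 : (2528 / 8192 : ℝ) ≤ θ) (h2 : θ ≤ (2536 / 8192 : ℝ)) : GT θ :=
  cell hS (A := 2532) (h := 4) (B := b2532) (I := i2532) (cs := l2532) rfl rfl rfl rfl bo2532 ok2532 (by norm_num) (by norm_num) h1 h2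
theorem g2540 (hS : Sound) {θ : ℝ} (h1 : (2536 / 8192 : ℝ) ≤ θ) (h2 : θ ≤ (2544 / 8192 : ℝ)) : GT θ :=
  cell hS (A := 2540) (h := 4) (B := b2540) (I := i2540) (cs := l2540) rfl rfl rfl rfl bo2540 ok2540 (by norm_num) (by norm_num) h1 h2
theorem g2547 (hS : Sound) {θ : ℝ} (h1 : (2544 / 8192 : ℝ) ≤ θ) (h2 : θ ≤ (2550 / 8192 : ℝ)) : GT θ :=
  cell hS (A := 2547) (h := 3) (B := b2547) (I := i2547) (cs := l2547) rfl rfl rfl rfl bo2547 ok2547 (by norm_num) (by norm_num) h1 h2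
theorem g2553 (hS : Sound) {θ : ℝ} (h1 : (2550 / 8192 : ℝ) ≤ θ) (h2 : θ ≤ (2556 / 8192 : ℝ)) : GT θ :=
  cell hS (A := 2553) (h := 3) (B := b2553) (I := i2553) (cs := l2553) rfl rfl rfl rfl bo2553 ok2553 (by norm_num) (by norm_num) h1 h2
theorem g2560 (hS : Sound) {θ : ℝ} (h1 : (2556 / 8192 : ℝ) ≤ θ) (h2 : θ ≤ (2564 / 8192 : ℝ)) : GT θ :=
  cell hS (A := 2560) (h := 4) (B := b2560) (I := i2560) (cs := l2560) rfl rfl rfl rfl bo2560 ok2560 (by norm_num) (by norm_num) h1 h2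
theorem g2570 (hS : Sound) {θ : ℝ} (h1 : (2564 / 8192 : ℝ) ≤ θ) (h2 : θ ≤ (2576 / 8192 : ℝ)) : GT θ :=
  cell hS (A := 2570) (h := 6) (B := b2570) (I := i2570) (cs := l2570) rfl rfl rfl rfl bo2570 ok2570 (by norm_num) (by norm_num) h1 h2
theorem g2584 (hS : Sound) {θ : ℝ} (h1 : (2576 / 8192 : ℝ) ≤ θ) (h2 : θ ≤ (2592 / 8192 : ℝ)) : GT θ :=
  cell hS (A := 2584) (h := 8) (B := b2584) (I := i2584) (cs := l2584) rfl rfl rfl rfl bo2584 ok2584 (by norm_num) (by norm_num) h1 h2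
theorem g2604 (hS : Sound) {θ : ℝ} (h1 : (2592 / 8192 : ℝ) ≤ θ) (h2 : θ ≤ (2616 / 8192 : ℝ)) : GT θ :=
  cell hS (A := 2604) (h := 12) (B := b2604) (I := i2604) (cs := l2604) rfl rfl rfl rfl bo2604 ok2604 (by norm_num) (by norm_num) h1 h2
theorem g2632 (hS : Sound) {θ : ℝ} (h1 : (2616 / 8192 : ℝ) ≤ θ) (h2 : θ ≤ (2648 / 8192 : ℝ)) : GT θ :=
  cell hS (A := 2632) (h := 16) (B := b2632) (I := i2632) (cs := l2632) rfl rfl rfl rfl bo2632 ok2632 (by norm_num) (by norm_num) h1 h2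
theorem g2664 (hS : Sound) {θ : ℝ} (h1 : (2648 / 8192 : ℝ) ≤ θ) (h2 : θ ≤ (2680 / 8192 : ℝ)) : GT θ :=
  cell hS (A := 2664) (h := 16) (B := b2664) (I := i2664) (cs := l2664) rfl rfl rfl rfl bo2664 ok2664 (by norm_num) (by norm_num) h1 h2
theorem g2696 (hS : Sound) {θ : ℝ} (h1 : (2680 / 8192 : ℝ) ≤ θ) (h2 : θ ≤ (2712 / 8192 : ℝ)) : GT θ :=
  cell hS (A := 2696) (h := 16) (B := b2696) (I := i2696) (cs := l2696) rfl rfl rfl rfl bo2696 ok2696 (by norm_num) (by norm_num) h1 h2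
theorem g2724 (hS : Sound) {θ : ℝ} (h1 : (2712 / 8192 : ℝ) ≤ θ) (h2 : θ ≤ (2736 / 8192 : ℝ)) : GT θ :=
  cell hS (A := 2724) (h := 12) (B := b2724) (I := i2724) (cs := l2724) rfl rfl rfl rfl bo2724 ok2724 (by norm_num) (by norm_num) h1 h2
theorem g2748 (hS : Sound) {θ : ℝ} (h1 : (2736 / 8192 : ℝ) ≤ θ) (h2 : θ ≤ (2760 / 8192 : ℝ)) : GT θ :=
  cell hS (A := 2748) (h := 12) (B := b2748) (I := i2748) (cs := l2748) rfl rfl rfl rfl bo2748 ok2748 (by norm_num) (by norm_num) h1 h2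
theorem g2762 (hS : Sound) {θ : ℝ} (h1 : (2750 / 8192 : ℝ) ≤ θ) (h2 : θ ≤ (2774 / 8192 : ℝ)) : GT θ :=
  cell hS (A := 2762) (h := 12) (B := b2762) (I := i2762) (cs := l2762) rfl rfl rfl rfl bo2762 ok2762 (by norm_num) (by norm_num) h1 h2
theorem g2786 (hS : Sound) {θ : ℝ} (h1 : (2774 / 8192 : ℝ) ≤ θ) (h2 : θ ≤ (2798 / 8192 : ℝ)) : GT θ :=
  cell hS (A := 2786) (h := 12) (B := b2786) (I := i2786) (cs := l2786) rfl rfl rfl rfl bo2786 ok2786 (by norm_num) (by norm_num) h1 h2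
theorem g2810 (hS : Sound) {θ : ℝ} (h1 : (2798 / 8192 : ℝ) ≤ θ) (h2 : θ ≤ (2822 / 8192 : ℝ)) : GT θ :=
  cell hS (A := 2810) (h := 12) (B := b2810) (I := i2810) (cs := l2810) rfl rfl rfl rfl bo2810 ok2810 (by norm_num) (by norm_num) h1 h2
theorem g2834 (hS : Sound) {θ : ℝ} (h1 : (2822 / 8192 : ℝ) ≤ θ) (h2 : θ ≤ (2846 / 8192 : ℝ)) : GT θ :=
  cell hS (A := 2834) (h := 12) (B := b2834) (I := i2834) (cs := l2834) rfl rfl rfl rfl bo2834 ok2834 (by norm_num) (by norm_num) h1 h2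
theorem g2858 (hS : Sound) {θ : ℝ} (h1 : (2846 / 8192 : ℝ) ≤ θ) (h2 : θ ≤ (2870 / 8192 : ℝ)) : GT θ :=
  cell hS (A := 2858) (h := 12) (B := b2858) (I := i2858) (cs := l2858) rfl rfl rfl rfl bo2858 ok2858 (by norm_num) (by norm_num) h1 h2
theorem g2882 (hS : Sound) {θ : ℝ} (h1 : (2870 / 8192 : ℝ) ≤ θ) (h2 : θ ≤ (2894 / 8192 : ℝ)) : GT θ :=
  cell hS (A := 2882) (h := 12) (B := b2882) (I := i2882) (cs := l2882) rfl rfl rfl rfl bo2882 ok2882 (by norm_num) (by norm_num) h1 h2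
theorem g2902 (hS : Sound) {θ : ℝ} (h1 : (2894 / 8192 : ℝ) ≤ θ) (h2 : θ ≤ (2910 / 8192 : ℝ)) : GT θ :=
  cell hS (A := 2902) (h := 8) (B := b2902) (I := i2902) (cs := l2902) rfl rfl rfl rfl bo2902 ok2902 (by norm_num) (by norm_num) h1 h2
theorem g2918 (hS : Sound) {θ : ℝ} (h1 : (2910 / 8192 : ℝ) ≤ θ) (h2 : θ ≤ (2926 / 8192 : ℝ)) : GT θ :=
  cell hS (A := 2918) (h := 8) (B := b2918) (I := i2918) (cs := l2918) rfl rfl rfl rfl bo2918 ok2918 (by norm_num) (by norm_num) h1 h2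
theorem g2934 (hS : Sound) {θ : ℝ} (h1 : (2926 / 8192 : ℝ) ≤ θ) (h2 : θ ≤ (2942 / 8192 : ℝ)) : GT θ :=
  cell hS (A := 2934) (h := 8) (B := b2934) (I := i2934) (cs := l2934) rfl rfl rfl rfl bo2934 ok2934 (by norm_num) (by norm_num) h1 h2
theorem g2950 (hS : Sound) {θ : ℝ} (h1 : (2942 / 8192 : ℝ) ≤ θ) (h2 : θ ≤ (2958 / 8192 : ℝ)) : GT θ :=
  cell hS (A := 2950) (h := 8) (B := b2950) (I := i2950) (cs := l2950) rfl rfl rfl rfl bo2950 ok2950 (by norm_num) (by norm_num) h1 h2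
theorem g2964 (hS : Sound) {θ : ℝ} (h1 : (2958 / 8192 : ℝ) ≤ θ) (h2 : θ ≤ (2970 / 8192 : ℝ)) : GT θ :=
  cell hS (A := 2964) (h := 6) (B := b2964) (I := i2964) (cs := l2964) rfl rfl rfl rfl bo2964 ok2964 (by norm_num) (by norm_num) h1 h2
theorem g2976 (hS : Sound) {θ : ℝ} (h1 : (2970 / 8192 : ℝ) ≤ θ) (h2 : θ ≤ (2982 / 8192 : ℝ)) : GT θ :=
  cell hS (A := 2976) (h := 6) (B := b2976) (I := i2976) (cs := l2976) rfl rfl rfl rfl bo2976 ok2976 (by norm_num) (by norm_num) h1 h2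
theorem g2988 (hS : Sound) {θ : ℝ} (h1 : (2982 / 8192 : ℝ) ≤ θ) (h2 : θ ≤ (2994 / 8192 : ℝ)) : GT θ :=
  cell hS (A := 2988) (h := 6) (B := b2988) (I := i2988) (cs := l2988) rfl rfl rfl rfl bo2988 ok2988 (by norm_num) (by norm_num) h1 h2
theorem g3000 (hS : Sound) {θ : ℝ} (h1 : (2994 / 8192 : ℝ) ≤ θ) (h2 : θ ≤ (3006 / 8192 : ℝ)) : GT θ :=
  cell hS (A := 3000) (h := 6) (B := b3000) (I := i3000) (cs := l3000) rfl rfl rfl rfl bo3000 ok3000 (by norm_num) (by norm_num) h1 h2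
theorem g3012 (hS : Sound) {θ : ℝ} (h1 : (3006 / 8192 : ℝ) ≤ θ) (h2 : θ ≤ (3018 / 8192 : ℝ)) : GT θ :=
  cell hS (A := 3012) (h := 6) (B := b3012) (I := i3012) (cs := l3012) rfl rfl rfl rfl bo3012 ok3012 (by norm_num) (by norm_num) h1 h2
theorem g3022 (hS : Sound) {θ : ℝ} (h1 : (3018 / 8192 : ℝ) ≤ θ) (h2 : θ ≤ (3026 / 8192 : ℝ)) : GT θ :=
  cell hS (A := 3022) (h := 4) (B := b3022) (I := i3022) (cs := l3022) rfl rfl rfl rfl bo3022 ok3022 (by norm_num) (by norm_num) h1 h2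
theorem g3030 (hS : Sound) {θ : ℝ} (h1 : (3026 / 8192 : ℝ) ≤ θ) (h2 : θ ≤ (3034 / 8192 : ℝ)) : GT θ :=
  cell hS (A := 3030) (h := 4) (B := b3030) (I := i3030) (cs := l3030) rfl rfl rfl rfl bo3030 ok3030 (by norm_num) (by norm_num) h1 h2
theorem g3038 (hS : Sound) {θ : ℝ} (h1 : (3034 / 8192 : ℝ) ≤ θ) (h2 : θ ≤ (3042 / 8192 : ℝ)) : GT θ :=
  cell hS (A := 3038) (h := 4) (B := b3038) (I := i3038) (cs := l3038) rfl rfl rfl rfl bo3038 ok3038 (by norm_num) (by norm_num) h1 h2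
theorem g3046 (hS : Sound) {θ : ℝ} (h1 : (3042 / 8192 : ℝ) ≤ θ) (h2 : θ ≤ (3050 / 8192 : ℝ)) : GT θ :=
  cell hS (A := 3046) (h := 4) (B := b3046) (I := i3046) (cs := l3046) rfl rfl rfl rfl bo3046 ok3046 (by norm_num) (by norm_num) h1 h2
theorem g3054 (hS : Sound) {θ : ℝ} (h1 : (3050 / 8192 : ℝ) ≤ θ) (h2 : θ ≤ (3058 / 8192 : ℝ)) : GT θ :=
  cell hS (A := 3054) (h := 4) (B := b3054) (I := i3054) (cs := l3054) rfl rfl rfl rfl bo3054 ok3054 (by norm_num) (by norm_num) h1 h2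
theorem g3062 (hS : Sound) {θ : ℝ} (h1 : (3058 / 8192 : ℝ) ≤ θ) (h2 : θ ≤ (3066 / 8192 : ℝ)) : GT θ :=
  cell hS (A := 3062) (h := 4) (B := b3062) (I := i3062) (cs := l3062) rfl rfl rfl rfl bo3062 ok3062 (by norm_num) (by norm_num) h1 h2
theorem g3070 (hS : Sound) {θ : ℝ} (h1 : (3066 / 8192 : ℝ) ≤ θ) (h2 : θ ≤ (3074 / 8192 : ℝ)) : GT θ :=
  cell hS (A := 3070) (h := 4) (B := b3070) (I := i3070) (cs := l3070) rfl rfl rfl rfl bo3070 ok3070 (by norm_num) (by norm_num) h1 h2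
theorem g3080 (hS : Sound) {θ : ℝ} (h1 : (3074 / 8192 : ℝ) ≤ θ) (h2 : θ ≤ (3086 / 8192 : ℝ)) : GT θ :=
  cell hS (A := 3080) (h := 6) (B := b3080) (I := i3080) (cs := l3080) rfl rfl rfl rfl bo3080 ok3080 (by norm_num) (by norm_num) h1 h2
theorem g3092 (hS : Sound) {θ : ℝ} (h1 : (3086 / 8192 : ℝ) ≤ θ) (h2 : θ ≤ (3098 / 8192 : ℝ)) : GT θ :=
  cell hS (A := 3092) (h := 6) (B := b3092) (I := i3092) (cs := l3092) rfl rfl rfl rfl bo3092 ok3092 (by norm_num) (by norm_num) h1 h2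
theorem g3106 (hS : Sound) {θ : ℝ} (h1 : (3098 / 8192 : ℝ) ≤ θ) (h2 : θ ≤ (3114 / 8192 : ℝ)) : GT θ :=
  cell hS (A := 3106) (h := 8) (B := b3106) (I := i3106) (cs := l3106) rfl rfl rfl rfl bo3106 ok3106 (by norm_num) (by norm_num) h1 h2
theorem g3108 (hS : Sound) {θ : ℝ} (h1 : (3100 / 8192 : ℝ) ≤ θ) (h2 : θ ≤ (3116 / 8192 : ℝ)) : GT θ :=
  cell hS (A := 3108) (h := 8) (B := b3108) (I := i3108) (cs := l3108) rfl rfl rfl rfl bo3108 ok3108 (by norm_num) (by norm_num) h1 h2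
theorem g3124 (hS : Sound) {θ : ℝ} (h1 : (3116 / 8192 : ℝ) ≤ θ) (h2 : θ ≤ (3132 / 8192 : ℝ)) : GT θ :=
  cell hS (A := 3124) (h := 8) (B := b3124) (I := i3124) (cs := l3124) rfl rfl rfl rfl bo3124 ok3124 (by norm_num) (by norm_num) h1 h2
theorem g3140 (hS : Sound) {θ : ℝ} (h1 : (3132 / 8192 : ℝ) ≤ θ) (h2 : θ ≤ (3148 / 8192 : ℝ)) : GT θ :=
  cell hS (A := 3140) (h := 8) (B := b3140) (I := i3140) (cs := l3140) rfl rfl rfl rfl bo3140 ok3140 (by norm_num) (by norm_num) h1 h2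
theorem g3156 (hS : Sound) {θ : ℝ} (h1 : (3148 / 8192 : ℝ) ≤ θ) (h2 : θ ≤ (3164 / 8192 : ℝ)) : GT θ :=
  cell hS (A := 3156) (h := 8) (B := b3156) (I := i3156) (cs := l3156) rfl rfl rfl rfl bo3156 ok3156 (by norm_num) (by norm_num) h1 h2
theorem g3172 (hS : Sound) {θ : ℝ} (h1 : (3164 / 8192 : ℝ) ≤ θ) (h2 : θ ≤ (3180 / 8192 : ℝ)) : GT θ :=
  cell hS (A := 3172) (h := 8) (B := b3172) (I := i3172) (cs := l3172) rfl rfl rfl rfl bo3172 ok3172 (by norm_num) (by norm_num) h1 h2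
theorem g3192 (hS : Sound) {θ : ℝ} (h1 : (3180 / 8192 : ℝ) ≤ θ) (h2 : θ ≤ (3204 / 8192 : ℝ)) : GT θ :=
  cell hS (A := 3192) (h := 12) (B := b3192) (I := i3192) (cs := l3192) rfl rfl rfl rfl bo3192 ok3192 (by norm_num) (by norm_num) h1 h2
theorem g3216 (hS : Sound) {θ : ℝ} (h1 : (3204 / 8192 : ℝ) ≤ θ) (h2 : θ ≤ (3228 / 8192 : ℝ)) : GT θ :=
  cell hS (A := 3216) (h := 12) (B := b3216) (I := i3216) (cs := l3216) rfl rfl rfl rfl bo3216 ok3216 (by norm_num) (by norm_num) h1 h2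
theorem g3244 (hS : Sound) {θ : ℝ} (h1 : (3228 / 8192 : ℝ) ≤ θ) (h2 : θ ≤ (3260 / 8192 : ℝ)) : GT θ :=
  cell hS (A := 3244) (h := 16) (B := b3244) (I := i3244) (cs := l3244) rfl rfl rfl rfl bo3244 ok3244 (by norm_num) (by norm_num) h1 h2
theorem g3276 (hS : Sound) {θ : ℝ} (h1 : (3260 / 8192 : ℝ) ≤ θ) (h2 : θ ≤ (3292 / 8192 : ℝ)) : GT θ :=
  cell hS (A := 3276) (h := 16) (B := b3276) (I := i3276) (cs := l3276) rfl rfl rfl rfl bo3276 ok3276 (by norm_num) (by norm_num) h1 h2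
theorem g3308 (hS : Sound) {θ : ℝ} (h1 : (3292 / 8192 : ℝ) ≤ θ) (h2 : θ ≤ (3324 / 8192 : ℝ)) : GT θ :=
  cell hS (A := 3308) (h := 16) (B := b3308) (I := i3308) (cs := l3308) rfl rfl rfl rfl bo3308 ok3308 (by norm_num) (by norm_num) h1 h2
theorem g3340 (hS : Sound) {θ : ℝ} (h1 : (3324 / 8192 : ℝ) ≤ θ) (h2 : θ ≤ (3356 / 8192 : ℝ)) : GT θ :=
  cell hS (A := 3340) (h := 16) (B := b3340) (I := i3340) (cs := l3340) rfl rfl rfl rfl bo3340 ok3340 (by norm_num) (by norm_num) h1 h2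
theorem g3380 (hS : Sound) {θ : ℝ} (h1 : (3356 / 8192 : ℝ) ≤ θ) (h2 : θ ≤ (3404 / 8192 : ℝ)) : GT θ :=
  cell hS (A := 3380) (h := 24) (B := b3380) (I := i3380) (cs := l3380) rfl rfl rfl rfl bo3380 ok3380 (by norm_num) (by norm_num) h1 h2
theorem g3428 (hS : Sound) {θ : ℝ} (h1 : (3404 / 8192 : ℝ) ≤ θ) (h2 : θ ≤ (3452 / 8192 : ℝ)) : GT θ :=
  cell hS (A := 3428) (h := 24) (B := b3428) (I := i3428) (cs := l3428) rfl rfl rfl rfl bo3428 ok3428 (by norm_num) (by norm_num) h1 h2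
theorem g3476 (hS : Sound) {θ : ℝ} (h1 : (3452 / 8192 : ℝ) ≤ θ) (h2 : θ ≤ (3500 / 8192 : ℝ)) : GT θ :=
  cell hS (A := 3476) (h := 24) (B := b3476) (I := i3476) (cs := l3476) rfl rfl rfl rfl bo3476 ok3476 (by norm_num) (by norm_num) h1 h2
theorem g3524 (hS : Sound) {θ : ℝ} (h1 : (3500 / 8192 : ℝ) ≤ θ) (h2 : θ ≤ (3548 / 8192 : ℝ)) : GT θ :=
  cell hS (A := 3524) (h := 24) (B := b3524) (I := i3524) (cs := l3524) rfl rfl rfl rfl bo3524 ok3524 (by norm_num) (by norm_num) h1 h2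
theorem g3572 (hS : Sound) {θ : ℝ} (h1 : (3548 / 8192 : ℝ) ≤ θ) (h2 : θ ≤ (3596 / 8192 : ℝ)) : GT θ :=
  cell hS (A := 3572) (h := 24) (B := b3572) (I := i3572) (cs := l3572) rfl rfl rfl rfl bo3572 ok3572 (by norm_num) (by norm_num) h1 h2
theorem g3620 (hS : Sound) {θ : ℝ} (h1 : (3596 / 8192 : ℝ) ≤ θ) (h2 : θ ≤ (3644 / 8192 : ℝ)) : GT θ :=
  cell hS (A := 3620) (h := 24) (B := b3620) (I := i3620) (cs := l3620) rfl rfl rfl rfl bo3620 ok3620 (by norm_num) (by norm_num) h1 h2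
theorem g3668 (hS : Sound) {θ : ℝ} (h1 : (3644 / 8192 : ℝ) ≤ θ) (h2 : θ ≤ (3692 / 8192 : ℝ)) : GT θ :=
  cell hS (A := 3668) (h := 24) (B := b3668) (I := i3668) (cs := l3668) rfl rfl rfl rfl bo3668 ok3668 (by norm_num) (by norm_num) h1 h2
theorem g3716 (hS : Sound) {θ : ℝ} (h1 : (3692 / 8192 : ℝ) ≤ θ) (h2 : θ ≤ (3740 / 8192 : ℝ)) : GT θ :=
  cell hS (A := 3716) (h := 24) (B := b3716) (I := i3716) (cs := l3716) rfl rfl rfl rfl bo3716 ok3716 (by norm_num) (by norm_num) h1 h2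
theorem g3764 (hS : Sound) {θ : ℝ} (h1 : (3740 / 8192 : ℝ) ≤ θ) (h2 : θ ≤ (3788 / 8192 : ℝ)) : GT θ :=
  cell hS (A := 3764) (h := 24) (B := b3764) (I := i3764) (cs := l3764) rfl rfl rfl rfl bo3764 ok3764 (by norm_num) (by norm_num) h1 h2
theorem g3812 (hS : Sound) {θ : ℝ} (h1 : (3788 / 8192 : ℝ) ≤ θ) (h2 : θ ≤ (3836 / 8192 : ℝ)) : GT θ :=
  cell hS (A := 3812) (h := 24) (B := b3812) (I := i3812) (cs := l3812) rfl rfl rfl rfl bo3812 ok3812 (by norm_num) (by norm_num) h1 h2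
theorem g3852 (hS : Sound) {θ : ℝ} (h1 : (3836 / 8192 : ℝ) ≤ θ) (h2 : θ ≤ (3868 / 8192 : ℝ)) : GT θ :=
  cell hS (A := 3852) (h := 16) (B := b3852) (I := i3852) (cs := l3852) rfl rfl rfl rfl bo3852 ok3852 (by norm_num) (by norm_num) h1 h2
theorem g3884 (hS : Sound) {θ : ℝ} (h1 : (3868 / 8192 : ℝ) ≤ θ) (h2 : θ ≤ (3900 / 8192 : ℝ)) : GT θ :=
  cell hS (A := 3884) (h := 16) (B := b3884) (I := i3884) (cs := l3884) rfl rfl rfl rfl bo3884 ok3884 (by norm_num) (by norm_num) h1 h2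
theorem g3916 (hS : Sound) {θ : ℝ} (h1 : (3900 / 8192 : ℝ) ≤ θ) (h2 : θ ≤ (3932 / 8192 : ℝ)) : GT θ :=
  cell hS (A := 3916) (h := 16) (B := b3916) (I := i3916) (cs := l3916) rfl rfl rfl rfl bo3916 ok3916 (by norm_num) (by norm_num) h1 h2
theorem g3944 (hS : Sound) {θ : ℝ} (h1 : (3932 / 8192 : ℝ) ≤ θ) (h2 : θ ≤ (3956 / 8192 : ℝ)) : GT θ :=
  cell hS (A := 3944) (h := 12) (B := b3944) (I := i3944) (cs := l3944) rfl rfl rfl rfl bo3944 ok3944 (by norm_num) (by norm_num) h1 h2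
theorem g3964 (hS : Sound) {θ : ℝ} (h1 : (3956 / 8192 : ℝ) ≤ θ) (h2 : θ ≤ (3972 / 8192 : ℝ)) : GT θ :=
  cell hS (A := 3964) (h := 8) (B := b3964) (I := i3964) (cs := l3964) rfl rfl rfl rfl bo3964 ok3964 (by norm_num) (by norm_num) h1 h2
theorem g3980 (hS : Sound) {θ : ℝ} (h1 : (3972 / 8192 : ℝ) ≤ θ) (h2 : θ ≤ (3988 / 8192 : ℝ)) : GT θ :=
  cell hS (A := 3980) (h := 8) (B := b3980) (I := i3980) (cs := l3980) rfl rfl rfl rfl bo3980 ok3980 (by norm_num) (by norm_num) h1 h2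
theorem g3996 (hS : Sound) {θ : ℝ} (h1 : (3988 / 8192 : ℝ) ≤ θ) (h2 : θ ≤ (4004 / 8192 : ℝ)) : GT θ :=
  cell hS (A := 3996) (h := 8) (B := b3996) (I := i3996) (cs := l3996) rfl rfl rfl rfl bo3996 ok3996 (by norm_num) (by norm_num) h1 h2
theorem g4010 (hS : Sound) {θ : ℝ} (h1 : (4004 / 8192 : ℝ) ≤ θ) (h2 : θ ≤ (4016 / 8192 : ℝ)) : GT θ :=
  cell hS (A := 4010) (h := 6) (B := b4010) (I := i4010) (cs := l4010) rfl rfl rfl rfl bo4010 ok4010 (by norm_num) (by norm_num) h1 h2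

theorem gt_mid (hS : Sound) {θ : ℝ} (h1 : (2048 / 8192 : ℝ) ≤ θ) (h2 : θ ≤ (4016 / 8192 : ℝ)) : GT θ := by
  rcases le_total θ (2064 / 8192 : ℝ) with h | h2056
  · exact g2056 hS h1 h
  rcases le_total θ (2080 / 8192 : ℝ) with h | h2072
  · exact g2072 hS (le_trans (by norm_num) h2056) h
  rcases le_total θ (2096 / 8192 : ℝ) with h | h2088
  · exact g2088 hS (le_trans (by norm_num) h2072) h
  rcases le_total θ (2120 / 8192 : ℝ) with h | h2108
  · exact g2108 hS (le_trans (by norm_num) h2088) h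
  rcases le_total θ (2144 / 8192 : ℝ) with h | h2132
  · exact g2132 hS (le_trans (by norm_num) h2108) h
  rcases le_total θ (2168 / 8192 : ℝ) with h | h2156
  · exact g2156 hS (le_trans (by norm_num) h2132) h
  rcases le_total θ (2192 / 8192 : ℝ) with h | h2180
  · exact g2180 hS (le_trans (by norm_num) h2156) h
  rcases le_total θ (2216 / 8192 : ℝ) with h | h2204
  · exact g2204 hS (le_trans (by norm_num) h2180) h
  rcases le_total θ (2240 / 8192 : ℝ) with h | h2228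
  · exact g2228 hS (le_trans (by norm_num) h2204) h
  rcases le_total θ (2264 / 8192 : ℝ) with h | h2252
  · exact g2252 hS (le_trans (by norm_num) h2228) h
  rcases le_total θ (2296 / 8192 : ℝ) with h | h2280
  · exact g2280 hS (le_trans (by norm_num) h2252) h
  rcases le_total θ (2328 / 8192 : ℝ) with h | h2312
  · exact g2312 hS (le_trans (by norm_num) h2280) h
  rcases le_total θ (2360 / 8192 : ℝ) with h | h2344
  · exact g2344 hS (le_trans (by norm_num) h2312) h
  rcases le_total θ (2392 / 8192 : ℝ) with h | h2376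
  · exact g2376 hS (le_trans (by norm_num) h2344) h
  rcases le_total θ (2424 / 8192 : ℝ) with h | h2408
  · exact g2408 hS (le_trans (by norm_num) h2376) h
  rcases le_total θ (2456 / 8192 : ℝ) with h | h2440
  · exact g2440 hS (le_trans (by norm_num) h2408) h
  rcases le_total θ (2480 / 8192 : ℝ) with h | h2468
  · exact g2468 hS (le_trans (by norm_num) h2440) h
  rcases le_total θ (2496 / 8192 : ℝ) with h | h2488
  · exact g2488 hS (le_trans (by norm_num) h2468) h
  rcases le_total θ (2512 / 8192 : ℝ) with h | h2504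
  · exact g2504 hS (le_trans (by norm_num) h2488) h
  rcases le_total θ (2516 / 8192 : ℝ) with h | h2508
  · exact g2508 hS (le_trans (by norm_num) h2504) h
  rcases le_total θ (2528 / 8192 : ℝ) with h | h2522
  · exact g2522 hS (le_trans (by norm_num) h2508) h
  rcases le_total θ (2536 / 8192 : ℝ) with h | h2532
  · exact g2532 hS (le_trans (by norm_num) h2522) h
  rcases le_total θ (2544 / 8192 : ℝ) with h | h2540
  · exact g2540 hS (le_trans (by norm_num) h2532) h
  rcases le_total θ (2550 / 8192 : ℝ) with h | h2547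
  · exact g2547 hS (le_trans (by norm_num) h2540) h
  rcases le_total θ (2556 / 8192 : ℝ) with h | h2553
  · exact g2553 hS (le_trans (by norm_num) h2547) h
  rcases le_total θ (2564 / 8192 : ℝ) with h | h2560
  · exact g2560 hS (le_trans (by norm_num) h2553) h
  rcases le_total θ (2576 / 8192 : ℝ) with h | h2570
  · exact g2570 hS (le_trans (by norm_num) h2560) h
  rcases le_total θ (2592 / 8192 : ℝ) with h | h2584
  · exact g2584 hS (le_trans (by norm_num) h2570) h
  rcases le_total θ (2616 / 8192 : ℝ) with h | h2604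
  · exact g2604 hS (le_trans (by norm_num) h2584) h
  rcases le_total θ (2648 / 8192 : ℝ) with h | h2632
  · exact g2632 hS (le_trans (by norm_num) h2604) h
  rcases le_total θ (2680 / 8192 : ℝ) with h | h2664
  · exact g2664 hS (le_trans (by norm_num) h2632) h
  rcases le_total θ (2712 / 8192 : ℝ) with h | h2696
  · exact g2696 hS (le_trans (by norm_num) h2664) h
  rcases le_total θ (2736 / 8192 : ℝ) with h | h2724
  · exact g2724 hS (le_trans (by norm_num) h2696) h
  rcases le_total θ (2760 / 8192 : ℝ) with h | h2748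
  · exact g2748 hS (le_trans (by norm_num) h2724) h
  rcases le_total θ (2774 / 8192 : ℝ) with h | h2762
  · exact g2762 hS (le_trans (by norm_num) h2748) h
  rcases le_total θ (2798 / 8192 : ℝ) with h | h2786
  · exact g2786 hS (le_trans (by norm_num) h2762) h
  rcases le_total θ (2822 / 8192 : ℝ) with h | h2810
  · exact g2810 hS (le_trans (by norm_num) h2786) h
  rcases le_total θ (2846 / 8192 : ℝ) with h | h2834
  · exact g2834 hS (le_trans (by norm_num) h2810) h
  rcases le_total θ (2870 / 8192 : ℝ) with h | h2858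
  · exact g2858 hS (le_trans (by norm_num) h2834) h
  rcases le_total θ (2894 / 8192 : ℝ) with h | h2882
  · exact g2882 hS (le_trans (by norm_num) h2858) h
  rcases le_total θ (2910 / 8192 : ℝ) with h | h2902
  · exact g2902 hS (le_trans (by norm_num) h2882) h
  rcases le_total θ (2926 / 8192 : ℝ) with h | h2918
  · exact g2918 hS (le_trans (by norm_num) h2902) h
  rcases le_total θ (2942 / 8192 : ℝ) with h | h2934
  · exact g2934 hS (le_trans (by norm_num) h2918) h
  rcases le_total θ (2958 / 8192 : ℝ) with h | h2950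
  · exact g2950 hS (le_trans (by norm_num) h2934) h
  rcases le_total θ (2970 / 8192 : ℝ) with h | h2964
  · exact g2964 hS (le_trans (by norm_num) h2950) h
  rcases le_total θ (2982 / 8192 : ℝ) with h | h2976
  · exact g2976 hS (le_trans (by norm_num) h2964) h
  rcases le_total θ (2994 / 8192 : ℝ) with h | h2988
  · exact g2988 hS (le_trans (by norm_num) h2976) h
  rcases le_total θ (3006 / 8192 : ℝ) with h | h3000
  · exact g3000 hS (le_trans (by norm_num) h2988) h
  rcases le_total θ (3018 / 8192 : ℝ) with h | h3012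
  · exact g3012 hS (le_trans (by norm_num) h3000) h
  rcases le_total θ (3026 / 8192 : ℝ) with h | h3022
  · exact g3022 hS (le_trans (by norm_num) h3012) h
  rcases le_total θ (3034 / 8192 : ℝ) with h | h3030
  · exact g3030 hS (le_trans (by norm_num) h3022) h
  rcases le_total θ (3042 / 8192 : ℝ) with h | h3038
  · exact g3038 hS (le_trans (by norm_num) h3030) h
  rcases le_total θ (3050 / 8192 : ℝ) with h | h3046
  · exact g3046 hS (le_trans (by norm_num) h3038) h
  rcases le_total θ (3058 / 8192 : ℝ) with h | h3054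
  · exact g3054 hS (le_trans (by norm_num) h3046) h
  rcases le_total θ (3066 / 8192 : ℝ) with h | h3062
  · exact g3062 hS (le_trans (by norm_num) h3054) h
  rcases le_total θ (3074 / 8192 : ℝ) with h | h3070
  · exact g3070 hS (le_trans (by norm_num) h3062) h
  rcases le_total θ (3086 / 8192 : ℝ) with h | h3080
  · exact g3080 hS (le_trans (by norm_num) h3070) h
  rcases le_total θ (3098 / 8192 : ℝ) with h | h3092
  · exact g3092 hS (le_trans (by norm_num) h3080) h
  rcases le_total θ (3114 / 8192 : ℝ) with h | h3106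
  · exact g3106 hS (le_trans (by norm_num) h3092) h
  rcases le_total θ (3116 / 8192 : ℝ) with h | h3108
  · exact g3108 hS (le_trans (by norm_num) h3106) h
  rcases le_total θ (3132 / 8192 : ℝ) with h | h3124
  · exact g3124 hS (le_trans (by norm_num) h3108) h
  rcases le_total θ (3148 / 8192 : ℝ) with h | h3140
  · exact g3140 hS (le_trans (by norm_num) h3124) h
  rcases le_total θ (3164 / 8192 : ℝ) with h | h3156
  · exact g3156 hS (le_trans (by norm_num) h3140) h
  rcases le_total θ (3180 / 8192 : ℝ) with h | h3172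
  · exact g3172 hS (le_trans (by norm_num) h3156) h
  rcases le_total θ (3204 / 8192 : ℝ) with h | h3192
  · exact g3192 hS (le_trans (by norm_num) h3172) h
  rcases le_total θ (3228 / 8192 : ℝ) with h | h3216
  · exact g3216 hS (le_trans (by norm_num) h3192) h
  rcases le_total θ (3260 / 8192 : ℝ) with h | h3244
  · exact g3244 hS (le_trans (by norm_num) h3216) h
  rcases le_total θ (3292 / 8192 : ℝ) with h | h3276
  · exact g3276 hS (le_trans (by norm_num) h3244) h
  rcases le_total θ (3324 / 8192 : ℝ) with h | h3308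
  · exact g3308 hS (le_trans (by norm_num) h3276) h
  rcases le_total θ (3356 / 8192 : ℝ) with h | h3340
  · exact g3340 hS (le_trans (by norm_num) h3308) h
  rcases le_total θ (3404 / 8192 : ℝ) with h | h3380
  · exact g3380 hS (le_trans (by norm_num) h3340) h
  rcases le_total θ (3452 / 8192 : ℝ) with h | h3428
  · exact g3428 hS (le_trans (by norm_num) h3380) h
  rcases le_total θ (3500 / 8192 : ℝ) with h | h3476
  · exact g3476 hS (le_trans (by norm_num) h3428) h
  rcases le_total θ (3548 / 8192 : ℝ) with h | h3524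
  · exact g3524 hS (le_trans (by norm_num) h3476) h
  rcases le_total θ (3596 / 8192 : ℝ) with h | h3572
  · exact g3572 hS (le_trans (by norm_num) h3524) h
  rcases le_total θ (3644 / 8192 : ℝ) with h | h3620
  · exact g3620 hS (le_trans (by norm_num) h3572) h
  rcases le_total θ (3692 / 8192 : ℝ) with h | h3668
  · exact g3668 hS (le_trans (by norm_num) h3620) h
  rcases le_total θ (3740 / 8192 : ℝ) with h | h3716
  · exact g3716 hS (le_trans (by norm_num) h3668) h
  rcases le_total θ (3788 / 8192 : ℝ) with h | h3764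
  · exact g3764 hS (le_trans (by norm_num) h3716) h
  rcases le_total θ (3836 / 8192 : ℝ) with h | h3812
  · exact g3812 hS (le_trans (by norm_num) h3764) h
  rcases le_total θ (3868 / 8192 : ℝ) with h | h3852
  · exact g3852 hS (le_trans (by norm_num) h3812) h
  rcases le_total θ (3900 / 8192 : ℝ) with h | h3884
  · exact g3884 hS (le_trans (by norm_num) h3852) h
  rcases le_total θ (3932 / 8192 : ℝ) with h | h3916
  · exact g3916 hS (le_trans (by norm_num) h3884) h
  rcases le_total θ (3956 / 8192 : ℝ) with h | h3944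
  · exact g3944 hS (le_trans (by norm_num) h3916) h
  rcases le_total θ (3972 / 8192 : ℝ) with h | h3964
  · exact g3964 hS (le_trans (by norm_num) h3944) h
  rcases le_total θ (3988 / 8192 : ℝ) with h | h3980
  · exact g3980 hS (le_trans (by norm_num) h3964) h
  rcases le_total θ (4004 / 8192 : ℝ) with h | h3996
  · exact g3996 hS (le_trans (by norm_num) h3980) h
  exact g4010 hS (le_trans (by norm_num) h3996) h2

end Pool.Agent.Helper53.PT
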