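import Pool.Agent.Helper53.PT.Cert.P2312

/-!
# MP_705522_gt, `q ∈ (2,4)`: certificate for `θ ∈ [2296/8192, 2328/8192]`
-/

set_option maxRecDepth 100000

namespace Pool.Agent.Helper53.PT.N

theorem q2312 : clsOK (mkTab b2312 i2312) [l2312_4, l2312_5, l2312_6, l2312_0] = true := by
  decide +kernel

theorem p2312_a : ixOK (mkTab b2312 i2312) = true ∧ smOK (mkTab b2312 i2312) = true ∧ clsOK (mkTab b2312 i2312) [l2312_3, l2312_7, l2312_8] = true := by
  have h := p2312
  rw [cond_ff, cond_ff] at h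
  exact h

theorem c2312_3 : clOK (mkTab b2312 i2312) l2312_3 = true := (clsOK_cons p2312_a.2.2).1
theorem c2312_7 : clOK (mkTab b2312 i2312) l2312_7 = true := (clsOK_cons (clsOK_cons p2312_a.2.2).2).1
theorem c2312_8 : clOK (mkTab b2312 i2312) l2312_8 = true := (clsOK_cons (clsOK_cons (clsOK_cons p2312_a.2.2).2).2).1
theorem c2312_4 : clOK (mkTab b2312 i2312) l2312_4 = true := (clsOK_cons q2312).1
theorem c2312_5 : clOK (mkTab b2312 i2312) l2312_5 = true := (clsOK_cons (clsOK_cons q2312).2).1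
theorem c2312_6 : clOK (mkTab b2312 i2312) l2312_6 = true := (clsOK_cons (clsOK_cons (clsOK_cons q2312).2).2).1
theorem c2312_0 : clOK (mkTab b2312 i2312) l2312_0 = true := (clsOK_cons (clsOK_cons (clsOK_cons (clsOK_cons q2312).2).2).2).1

theorem ok2312 : chk b2312 i2312 l2312 = true := chk_mk p2312_a.1 p2312_a.2.1
    (clAll_cons rfl rfl c2312_3
    (clAll_cons rfl rfl c2312_4
    (clAll_cons rfl rfl c2312_5
    (clAll_cons rfl rfl c2312_6
    (clAll_cons rfl rfl c2312_7
    (clAll_cons rfl rfl c2312_8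
    (clAll_last rfl rfl c2312_0)))))))

end Pool.Agent.Helper53.PT.N
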