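import Pool.Agent.Helper53.PT.Cert.P2547

/-!
# MP_705522_gt, `q ∈ (2,4)`: certificate for `θ ∈ [2544/8192, 2550/8192]`
-/

set_option maxRecDepth 100000

namespace Pool.Agent.Helper53.PT.N

theorem q2547 : clsOK (mkTab b2547 i2547) [l2547_3, l2547_4, l2547_6, l2547_0] = true := by
  decide +kernel

theorem p2547_a : ixOK (mkTab b2547 i2547) = true ∧ smOK (mkTab b2547 i2547) = true ∧ clsOK (mkTab b2547 i2547) [l2547_5] = true := by
  have h := p2547
  rw [cond_ff, cond_ff] at h
  exact h

theorem c2547_5 : clOK (mkTab b2547 i2547) l2547_5 = true := (clsOK_cons p2547_a.2.2).1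
theorem c2547_3 : clOK (mkTab b2547 i2547) l2547_3 = true := (clsOK_cons q2547).1
theorem c2547_4 : clOK (mkTab b2547 i2547) l2547_4 = true := (clsOK_cons (clsOK_cons q2547).2).1
theorem c2547_6 : clOK (mkTab b2547 i2547) l2547_6 = true := (clsOK_cons (clsOK_cons (clsOK_cons q2547).2).2).1
theorem c2547_0 : clOK (mkTab b2547 i2547) l2547_0 = true := (clsOK_cons (clsOK_cons (clsOK_cons (clsOK_cons q2547).2).2).2).1

theorem ok2547 : chk b2547 i2547 l2547 = true := chk_mk p2547_a.1 p2547_a.2.1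
    (clAll_cons rfl rfl c2547_3
    (clAll_cons rfl rfl c2547_4
    (clAll_cons rfl rfl c2547_5
    (clAll_cons rfl rfl c2547_6
    (clAll_last rfl rfl c2547_0)))))

end Pool.Agent.Helper53.PT.N
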