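import Pool.Agent.Helper53.PT.Cert.P2724

/-!
# MP_705522_gt, `q ∈ (2,4)`: certificate for `θ ∈ [2712/8192, 2736/8192]`
-/

set_option maxRecDepth 100000

namespace Pool.Agent.Helper53.PT.N

theorem u2724 : acPre (mkTab b2724 i2724) 0 5 a2724_0 8 245 = true := by
  decide +kernel

end Pool.Agent.Helper53.PT.N
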